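import Mathlib
import Pool.Agent.H644R2.GKS.Final

/-!
# An explicit upper bound for the expected cost of the permutation-streaming game

The protocols are those of the starting library (`exists_protocol`, with the parameters
`m = s (s + 1)` and `q ≈ n^{1/s}`). Here the number `s` of the stages grows with `n`: with
`s ≈ (log n / log log n)^{1/3}` both `n^{1/s}` and the factor `(log n)^{O(s²)}` are at most
`exp (O (((log n)² log log n)^{1/3}))`.

All definitions (`Protocol`, `Protocol.final`, `Protocol.Valid`, `Protocol.cost`, `costs`, `Ct`)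
are in `Pool/Agent/H644R2/GKS/Model.lean`.
-/

set_option autoImplicit false
open Filter Topology

namespace Pool.Agent.Results.MP_a7c66d_lc.ExplicitUpperBound

open H644R2.GKS

/-- The bound for suitable `n`, with `L = log n`, `l = log log n` and `u³ l = L`. -/
theorem main_calc (n : ℕ) (hn : 1 ≤ n) (L l u : ℝ) (hL : L = Real.log n) (hl : l = Real.log L)
    (hl10 : 10 ≤ l) (hL20 : 20 ≤ L) (hu : u ^ 3 * l = L) (hu12 : 12 ≤ u) :
    Ct n ≤ Real.exp (77 * (u ^ 2 * l)) := by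
  have hn0 : (0 : ℝ) < n := by exact_mod_cast hn
  have hL0 : 0 < L := by linarith
  have hl0 : 0 < l := by linarith
  have hu0 : 0 < u := by linarith
  have hexpL : Real.exp L = n := by rw [hL, Real.exp_log hn0]
  have hexpl : Real.exp l = L := by rw [hl, Real.exp_log hL0]
  set E : ℝ := u ^ 2 * l with hE
  have hLE : L = u * E := by rw [hE, ← hu]; ring
  have hu2 : u ≤ u ^ 2 := by nlinarith
  have hu1 : 1 ≤ u ^ 2 := by nlinarith
  have hEl : l ≤ E := by rw [hE]; nlinarith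
  have hE0 : 0 < E := by linarith
  have huL : u ≤ L := by
    have h1 : u * 1 ≤ u * E := mul_le_mul_of_nonneg_left (by linarith) hu0.le
    rw [← hLE] at h1
    linarith
  have huE : u * l ≤ E := by
    rw [hE]
    exact mul_le_mul_of_nonneg_right hu2 hl0.le
  -- the number of stages
  obtain ⟨s, hs1, hs2⟩ : ∃ s : ℕ, u ≤ s ∧ (s : ℝ) ≤ 2 * u :=
    ⟨⌈u⌉₊, Nat.le_ceil u, by
      have := (Nat.ceil_lt_add_one hu0.le).le
      linarith⟩
  have hs0 : (0 : ℝ) < s := by linarith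
  have hs1' : (1 : ℝ) ≤ s := by linarith
  set m : ℕ := s * (s + 1) with hm
  have hmr : (m : ℝ) = s * (s + 1) := by rw [hm]; push_cast; ring
  have hm8 : (m : ℝ) + 1 ≤ 9 * u ^ 2 := by
    rw [hmr]
    have h1 : (s : ℝ) * s ≤ (2 * u) * (2 * u) := mul_le_mul hs2 hs2 hs0.le (by linarith)
    have e1 : (2 * u) * (2 * u) = 4 * u ^ 2 := by ring
    have e2 : (s : ℝ) * (s + 1) = s * s + s := by ring
    linarith
  have hm9 : (m : ℝ) + 1 ≤ 9 * L ^ 2 := by
    have : u ^ 2 ≤ L ^ 2 := pow_le_pow_left₀ hu0.le huL 2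
    linarith
  have hM12 : (((m + s : ℕ)) : ℝ) ≤ 12 * u ^ 2 := by
    push_cast
    rw [hmr]
    have h1 : (s : ℝ) * s ≤ (2 * u) * (2 * u) := mul_le_mul hs2 hs2 hs0.le (by linarith)
    have e1 : (2 * u) * (2 * u) = 4 * u ^ 2 := by ring
    have e2 : (s : ℝ) * (s + 1) = s * s + s := by ring
    linarith
  have hM12' : (((m + s : ℕ)) : ℝ) ≤ 12 * L ^ 2 := by
    have : u ^ 2 ≤ L ^ 2 := pow_le_pow_left₀ hu0.le huL 2
    linarith
  -- q
  have hlogn : Real.log n = L := hL.symm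
  set R : ℝ := Real.exp (L / s) with hR
  have hR1 : 1 ≤ R := Real.one_le_exp (by positivity)
  have hRE : R ≤ Real.exp E := by
    rw [hR, Real.exp_le_exp, div_le_iff₀ hs0, hLE, mul_comm]
    exact mul_le_mul_of_nonneg_left hs1 hE0.le
  have hE1 : (1 : ℝ) ≤ Real.exp E := Real.one_le_exp hE0.le
  obtain ⟨q, hq⟩ : ∃ q : ℕ, q + 1 = ⌈R⌉₊ := by
    have h1 : 0 < ⌈R⌉₊ := Nat.ceil_pos.2 (by positivity)
    exact ⟨⌈R⌉₊ - 1, by omega⟩
  have hq1 : R ≤ (q : ℝ) + 1 := by
    have := Nat.le_ceil R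
    rw [← hq] at this
    exact_mod_cast this
  have hq2 : (q : ℝ) + 1 ≤ 2 * Real.exp E := by
    have h1 := Nat.ceil_lt_add_one (a := R) (by positivity)
    rw [← hq] at h1
    push_cast at h1
    linarith
  have hqn : n ≤ (q + 1) ^ s := by
    have h1 : (n : ℝ) ≤ ((q : ℝ) + 1) ^ s := by
      calc (n : ℝ) = R ^ s := by
            rw [hR, ← Real.exp_nat_mul, mul_div_cancel₀ _ hs0.ne', hexpL]
        _ ≤ _ := by gcongr
    exact_mod_cast h1
  -- w
  set w : ℕ := ⌈2 * ((m : ℝ) + 1) * ((q : ℝ) + 1) * Real.log n⌉₊ with hwdef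
  have hw1 : 2 * ((m : ℝ) + 1) * ((q : ℝ) + 1) * Real.log n ≤ w := Nat.le_ceil _
  have hw2 : (w : ℝ) ≤ 2 * ((m : ℝ) + 1) * ((q : ℝ) + 1) * Real.log n + 1 :=
    (Nat.ceil_lt_add_one (by rw [hlogn]; positivity)).le
  have hL3 : (1 : ℝ) ≤ L ^ 3 := one_le_pow₀ (by linarith)
  have hwE : (w : ℝ) ≤ 37 * L ^ 3 * Real.exp E := by
    rw [hlogn] at hw2
    have h1 : 2 * ((m : ℝ) + 1) * ((q : ℝ) + 1) * L ≤ 2 * (9 * L ^ 2) * (2 * Real.exp E) * L := by
      gcongr
    have h2 : (1 : ℝ) ≤ L ^ 3 * Real.exp E := one_le_mul_of_one_le_of_one_le hL3 hE1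
    calc (w : ℝ) ≤ 2 * (9 * L ^ 2) * (2 * Real.exp E) * L + 1 := hw2.trans (by linarith)
      _ ≤ 2 * (9 * L ^ 2) * (2 * Real.exp E) * L + L ^ 3 * Real.exp E := by linarith
      _ = 37 * L ^ 3 * Real.exp E := by ring
  -- powers of `L`
  have hL5 : L ^ 5 ≤ Real.exp (5 * E) := by
    rw [← hexpl, ← Real.exp_nat_mul, Real.exp_le_exp]
    push_cast
    linarith
  have hbig : (((m + s) * w + (m + s) + 3 : ℕ) : ℝ) + 1 + s + (m + s : ℕ) ≤
      500 * Real.exp (6 * E) := by
    have e6 : Real.exp (6 * E) = Real.exp (5 * E) * Real.exp E := by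
      rw [← Real.exp_add]; congr 1; ring
    have h0 : (((m + s) * w + (m + s) + 3 : ℕ) : ℝ) + 1 + s + (m + s : ℕ) =
        ((m + s : ℕ) : ℝ) * w + 2 * ((m + s : ℕ) : ℝ) + 4 + s := by
      push_cast; ring
    have h1 : ((m + s : ℕ) : ℝ) * w ≤ (12 * L ^ 2) * (37 * L ^ 3 * Real.exp E) := by
      gcongr
    have h2 : (s : ℝ) ≤ 2 * L := by linarith
    have h3 : (1 : ℝ) ≤ L := by linarith
    have h4 : L ^ 2 ≤ L ^ 5 * Real.exp E := by
      have h5 : L ^ 2 ≤ L ^ 5 := pow_le_pow_right₀ h3 (by norm_num)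
      have h6 : L ^ 5 * 1 ≤ L ^ 5 * Real.exp E := by gcongr
      linarith
    have h5 : L ≤ L ^ 2 := le_self_pow₀ h3 two_ne_zero
    have h6 : (1 : ℝ) ≤ L ^ 2 := one_le_pow₀ h3
    have h7 : L ^ 5 * Real.exp E ≤ Real.exp (6 * E) := by
      rw [e6]
      gcongr
    rw [h0]
    calc ((m + s : ℕ) : ℝ) * w + 2 * ((m + s : ℕ) : ℝ) + 4 + s
        ≤ (12 * L ^ 2) * (37 * L ^ 3 * Real.exp E) + 2 * (12 * L ^ 2) + 4 * L ^ 2 + 2 * L ^ 2 := by
          linarith
      _ = 444 * (L ^ 5 * Real.exp E) + 30 * L ^ 2 := by ring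
      _ ≤ 474 * (L ^ 5 * Real.exp E) := by linarith
      _ ≤ 500 * Real.exp (6 * E) := by
          have := Real.exp_pos (6 * E)
          linarith
  have h500 : (500 : ℝ) ≤ Real.exp 10 := by
    have h1 : (2 : ℝ) ≤ Real.exp 1 := by
      have := Real.add_one_le_exp (1 : ℝ)
      linarith
    calc (500 : ℝ) ≤ 2 ^ 10 := by norm_num
      _ ≤ (Real.exp 1) ^ 10 := by gcongr
      _ = Real.exp 10 := by rw [← Real.exp_nat_mul]; norm_num
  have hcond : (m + s) * w + (m + s) + 3 ≤ n := by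
    have h1 : (((m + s) * w + (m + s) + 3 : ℕ) : ℝ) ≤ n := by
      have h2 : (((m + s) * w + (m + s) + 3 : ℕ) : ℝ) ≤ 500 * Real.exp (6 * E) := by
        have h3 : (0 : ℝ) ≤ ((m + s : ℕ) : ℝ) := Nat.cast_nonneg _
        linarith
      refine h2.trans ?_
      rw [← hexpL]
      calc 500 * Real.exp (6 * E) ≤ Real.exp 10 * Real.exp (6 * E) := by gcongr
        _ = Real.exp (10 + 6 * E) := by rw [← Real.exp_add]
        _ ≤ Real.exp L := by
            rw [Real.exp_le_exp, hLE]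
            have h9 : 12 * E ≤ u * E := mul_le_mul_of_nonneg_right hu12 hE0.le
            linarith
    exact_mod_cast h1
  obtain ⟨P, hPv, hPc⟩ := exists_protocol n w m s q hcond
  have h1 : Ct n ≤ P.cost := csInf_le (costs_bddBelow n) ⟨P, hPv, rfl⟩
  have hmc : ((s * (s + 1) : ℕ) : ℝ) = (m : ℝ) := by rw [hm]
  have hdb := DB_le (w := w) hn hqn (by rw [hmc]; exact hw1) (by rw [hmc]; exact hw2)
  rw [← hm] at hdb
  refine h1.trans (hPc.trans (hdb.trans ?_))
  -- the third term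
  have h19 : 2 * ((m : ℝ) + 1) * Real.log n + 1 ≤ Real.exp (6 * l) := by
    rw [hlogn]
    have h2 : 2 * ((m : ℝ) + 1) * L + 1 ≤ 19 * L ^ 3 := by
      have h3 : 2 * ((m : ℝ) + 1) * L ≤ 2 * (9 * L ^ 2) * L := by gcongr
      have h4 : 2 * (9 * L ^ 2) * L = 18 * L ^ 3 := by ring
      linarith
    have h3 : (19 : ℝ) ≤ Real.exp (3 * l) := by
      have := Real.add_one_le_exp (3 * l)
      linarith
    calc 2 * ((m : ℝ) + 1) * L + 1 ≤ 19 * L ^ 3 := h2
      _ ≤ Real.exp (3 * l) * L ^ 3 := by gcongr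
      _ = Real.exp (6 * l) := by
          rw [← hexpl, ← Real.exp_nat_mul, ← Real.exp_add]
          congr 1
          push_cast; ring
  have h19' : 0 ≤ 2 * ((m : ℝ) + 1) * Real.log n + 1 := by rw [hlogn]; positivity
  have hthird : (2 * ((m : ℝ) + 1) * Real.log n + 1) ^ (m + s) ≤ Real.exp (72 * E) := by
    calc (2 * ((m : ℝ) + 1) * Real.log n + 1) ^ (m + s) ≤ (Real.exp (6 * l)) ^ (m + s) :=
          pow_le_pow_left₀ h19' h19 _
      _ = Real.exp (((m + s : ℕ) : ℝ) * (6 * l)) := by rw [← Real.exp_nat_mul]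
      _ ≤ Real.exp (72 * E) := by
          rw [Real.exp_le_exp, hE]
          have h5 : ((m + s : ℕ) : ℝ) * (6 * l) ≤ (12 * u ^ 2) * (6 * l) := by gcongr
          linarith
  have hfour : (((s + 1 : ℕ) : ℝ)) ^ s + 1 ≤ 2 * Real.exp (4 * E) := by
    have h2 : (((s + 1 : ℕ) : ℝ)) ≤ Real.exp (2 * l) := by
      have h3 : (((s + 1 : ℕ) : ℝ)) ≤ 3 * L := by
        push_cast
        linarith
      have h4 : (3 : ℝ) ≤ Real.exp l := by
        have := Real.add_one_le_exp l
        linarith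
      calc (((s + 1 : ℕ) : ℝ)) ≤ 3 * L := h3
        _ ≤ Real.exp l * L := by gcongr
        _ = Real.exp (2 * l) := by
            rw [← hexpl, ← Real.exp_add]
            congr 1; ring
    have h3 : (((s + 1 : ℕ) : ℝ)) ^ s ≤ Real.exp (4 * E) := by
      calc (((s + 1 : ℕ) : ℝ)) ^ s ≤ (Real.exp (2 * l)) ^ s :=
            pow_le_pow_left₀ (Nat.cast_nonneg _) h2 _
        _ = Real.exp ((s : ℝ) * (2 * l)) := by rw [← Real.exp_nat_mul]
        _ ≤ Real.exp (4 * E) := by
            rw [Real.exp_le_exp]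
            have h5 : (s : ℝ) * (2 * l) ≤ (2 * u) * (2 * l) := by gcongr
            linarith
    have h4 : (1 : ℝ) ≤ Real.exp (4 * E) := Real.one_le_exp (by positivity)
    linarith
  have hprod : (2 * ((m : ℝ) + 1) * Real.log n + 1) ^ (m + s) * ((((s + 1 : ℕ) : ℝ)) ^ s + 1) ≤
      2 * Real.exp (76 * E) := by
    calc _ ≤ Real.exp (72 * E) * (2 * Real.exp (4 * E)) := by gcongr
      _ = 2 * Real.exp (76 * E) := by
          rw [mul_left_comm, ← Real.exp_add]
          congr 2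
          ring
  have h6 : Real.exp (6 * E) ≤ Real.exp (76 * E) := by
    rw [Real.exp_le_exp]
    linarith
  have h502 : (502 : ℝ) ≤ Real.exp E := by
    have h1' : (2 : ℝ) ≤ Real.exp 1 := by
      have := Real.add_one_le_exp (1 : ℝ)
      linarith
    calc (502 : ℝ) ≤ 2 ^ 10 := by norm_num
      _ ≤ (Real.exp 1) ^ 10 := by gcongr
      _ = Real.exp 10 := by rw [← Real.exp_nat_mul]; norm_num
      _ ≤ Real.exp E := by
          rw [Real.exp_le_exp]
          linarith
  have e77 : Real.exp (77 * E) = Real.exp E * Real.exp (76 * E) := by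
    rw [← Real.exp_add]; congr 1; ring
  rw [e77]
  have h7 : 502 * Real.exp (76 * E) ≤ Real.exp E * Real.exp (76 * E) := by gcongr
  have h8 := hbig
  linarith [Real.exp_pos (76 * E)]

/-- **Explicit upper bound for the expected cost.** The minimum expected cost `C̃(n)` of a protocol
for the permutation-streaming game (the minimum exists) satisfies
`C̃(n) ≤ exp (77 ((log n)² log log n)^{1/3})` for all large `n`. In particular (negative answer to
Question 1) there are no `δ, c > 0` with `C̃(n) ≥ c n^δ` for all large `n`. -/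
theorem result :
    (∀ n : ℕ, IsLeast (costs n) (Ct n)) ∧
    (∀ᶠ n : ℕ in atTop, Ct n ≤ Real.exp (77 *
      ((Real.log n) ^ 2 * Real.log (Real.log n)) ^ ((1 : ℝ) / 3))) ∧
    ¬ ∃ δ : ℝ, 0 < δ ∧ ∃ c : ℝ, 0 < c ∧ ∀ᶠ n : ℕ in atTop, c * (n : ℝ) ^ δ ≤ Ct n := by
  refine ⟨costs_isLeast, ?_, no_poly_lower_bound⟩
  have t1 : Tendsto (fun n : ℕ => Real.log n) atTop atTop :=
    Real.tendsto_log_atTop.comp tendsto_natCast_atTop_atTop
  have t2 : Tendsto (fun n : ℕ => Real.log (Real.log n)) atTop atTop :=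
    Real.tendsto_log_atTop.comp t1
  have t3 : ∀ᶠ n : ℕ in atTop, Real.log (Real.log n) ≤ (1 / 1728) * Real.log n := by
    have h1 := (Real.isLittleO_log_id_atTop.bound (show (0 : ℝ) < 1 / 1728 by norm_num))
    have h2 := t1.eventually h1
    filter_upwards [h2, t1.eventually_ge_atTop 1] with n hn hn1
    rw [Real.norm_eq_abs, Real.norm_eq_abs, id, abs_of_nonneg (show 0 ≤ Real.log n by linarith)]
      at hn
    exact (le_abs_self _).trans hn
  filter_upwards [t1.eventually_ge_atTop 20, t2.eventually_ge_atTop 10, t3,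
    eventually_ge_atTop 1] with n hL hl h3 hn
  set L : ℝ := Real.log n with hLdef
  set l : ℝ := Real.log L with hldef
  have hL0 : 0 < L := by linarith
  have hl0 : 0 < l := by linarith
  set u : ℝ := (L / l) ^ ((1 : ℝ) / 3) with hudef
  have hq0 : 0 < L / l := by positivity
  have hu3 : u ^ 3 = L / l := by
    rw [hudef, ← Real.rpow_natCast, ← Real.rpow_mul hq0.le]
    norm_num
  have hu : u ^ 3 * l = L := by rw [hu3]; field_simp
  have hu0 : 0 < u := by rw [hudef]; positivity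
  have hu12 : 12 ≤ u := by
    by_contra hcon
    push Not at hcon
    have h4 : u ^ 3 < 12 ^ 3 := by gcongr
    rw [hu3, div_lt_iff₀ hl0] at h4
    linarith
  have h5 := main_calc n hn L l u hLdef hldef hl hL hu hu12
  have h6 : u ^ 2 * l = (L ^ 2 * l) ^ ((1 : ℝ) / 3) := by
    have h7 : L ^ 2 * l = (u ^ 2 * l) ^ 3 := by rw [← hu]; ring
    rw [h7, ← Real.rpow_natCast (u ^ 2 * l) 3, ← Real.rpow_mul (by positivity)]
    norm_num
  rw [← h6]
  exact h5

end Pool.Agent.Results.MP_a7c66d_lc.ExplicitUpperBound
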